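import Pool.Agent.Lib0c97.E3

/-!
# MP_0c27ff_nt : cyclic cubic fields over which an elliptic curve with a rational subgroup of order 3 gains a point

Definitions used in the statement (all in `Pool/Agent/Lib0c97/Defs.lean`):

* `crv a b d` is the curve `y ^ 2 = x ^ 3 + d (a x + b) ^ 2` over `ℚ` (`a₁ = a₃ = 0`, `a₂ = d a ^ 2`, `a₄ = 2 d a b`,
  `a₆ = d b ^ 2`); its discriminant is `16 d ^ 2 b ^ 3 (4 a ^ 3 d - 27 b)`;
* `CycCubic F X`: the subfield `F` of `ℂ` is a number field, Galois of degree `3` over `ℚ`, and `|disc F| ≤ X ^ 2` (for a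
  cyclic cubic field the discriminant is the square of the conductor, so this says: the conductor is at most `X`);
* `GainsPoint E F`: there is a point `P` of `E` over `F` such that no multiple `n P`, `n ≥ 1`, is a rational point. So the rank
  of `E(F)` is larger than the rank of `E(ℚ)`.
-/

set_option autoImplicit false

namespace Pool.Agent.Results.MP_0c27ff_nt.CubicRankGain

open Filter Pool.Agent.Lib0c97

/-- Let `a, b, d` be nonzero integers, `4 a ^ 3 d ≠ 27 b`, such that the conic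
`z ^ 2 + 4 a b m ^ 2 = b (4 a ^ 3 d - 27 b)` has a rational point. Then for every `ε > 0` and all large `X` there are at least
`X ^ (1 / 2 - ε)` cyclic cubic fields of conductor at most `X` over which the elliptic curve
`y ^ 2 = x ^ 3 + d (a x + b) ^ 2` gains a point. -/
theorem result (a b d : ℤ) (ha : a ≠ 0) (hb : b ≠ 0) (hd : d ≠ 0) (hC : 4 * a ^ 3 * d - 27 * b ≠ 0)
    (hconic : ∃ z m : ℚ, z ^ 2 + 4 * a * b * m ^ 2 = b * (4 * a ^ 3 * d - 27 * b))
    (ε : ℝ) (hε : 0 < ε) :
    ∃ X₀ : ℝ, ∀ X : ℝ, X₀ ≤ X → ∃ 𝓕 : Finset (IntermediateField ℚ ℂ),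
      X ^ (1 / 2 - ε) ≤ (𝓕.card : ℝ) ∧
      ∀ F ∈ 𝓕, CycCubic F X ∧ GainsPoint (crv a b d) F := by
  obtain ⟨z, m, h⟩ := hconic
  have hz : (z.den : ℚ) ≠ 0 := by exact_mod_cast z.den_nz
  have hm : (m.den : ℚ) ≠ 0 := by exact_mod_cast m.den_nz
  have he : ((z.den : ℤ) * (m.den : ℤ)) ≠ 0 := by
    have h1 : (z.den : ℤ) ≠ 0 := by exact_mod_cast z.den_nz
    have h2 : (m.den : ℤ) ≠ 0 := by exact_mod_cast m.den_nz
    exact mul_ne_zero h1 h2
  let S : Dat :=
    { a := a, b := b, d := d
      Z0 := z.num * m.den, M0 := m.num * z.den, e := z.den * m.den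
      ha := ha, hb := hb, hd := hd, he := he, hC := hC
      conic := by
        have e1 : (z.num : ℚ) = z * z.den := (Rat.mul_den_eq_num z).symm
        have e2 : (m.num : ℚ) = m * m.den := (Rat.mul_den_eq_num m).symm
        have key : (((z.num * m.den) ^ 2 + 4 * a * b * (m.num * z.den) ^ 2 : ℤ) : ℚ) =
            ((b * (4 * a ^ 3 * d - 27 * b) * (z.den * m.den) ^ 2 : ℤ) : ℚ) := by
          push_cast
          rw [e1, e2]
          linear_combination ((z.den : ℚ) * m.den) ^ 2 * h
        exact_mod_cast key }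
  exact Filter.eventually_atTop.mp (count S hε)

end Pool.Agent.Results.MP_0c27ff_nt.CubicRankGain
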